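import Pool.Agent.H624R3.CP.Stmts

set_option autoImplicit false

/-!
# COVPROD, task GOOD: existence of the good lattices
-/

namespace Pool.Agent.H388R3.CP

open MeasureTheory Metric Real Pool.Agent.H624R3.CP

theorem num1 : 1999 * (1999 / 2000 : ℝ) ^ (20000 : ℕ) ≤ 1 / 2 := by
  have h1 : (1999 / 2000 : ℝ) ≤ exp (-(1 / 2000)) := by
    have := Real.add_one_le_exp (-(1 / 2000) : ℝ)
    linarith
  have h2 : (1999 / 2000 : ℝ) ^ (20000 : ℕ) ≤ exp (-(1 / 2000)) ^ (20000 : ℕ) :=
    pow_le_pow_left₀ (by positivity) h1 _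
  have h3 : exp (-(1 / 2000)) ^ (20000 : ℕ) = exp (-10) := by
    rw [← Real.exp_nat_mul]
    congr 1
    norm_num
  have h4 : (3998 : ℝ) ≤ exp 10 := by
    have e1 : (2.7 : ℝ) ≤ exp 1 := by
      have := Real.exp_one_gt_d9
      linarith
    have e2 : exp 10 = exp 1 ^ 10 := by
      rw [← Real.exp_nat_mul]
      norm_num
    rw [e2]
    calc (3998 : ℝ) ≤ 2.7 ^ 10 := by norm_num
      _ ≤ exp 1 ^ 10 := pow_le_pow_left₀ (by norm_num) e1 _
  have h5 : exp (-10) ≤ 1 / 3998 := by
    rw [Real.exp_neg, ← one_div]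
    exact one_div_le_one_div_of_le (by norm_num) h4
  rw [h3] at h2
  calc 1999 * (1999 / 2000 : ℝ) ^ (20000 : ℕ) ≤ 1999 * (1 / 3998) := by
        apply mul_le_mul_of_nonneg_left (h2.trans h5) (by norm_num)
    _ = 1 / 2 := by norm_num

theorem num2 : √((21 / 20) / exp 1) * (11 / 10) ≤ exp (-(19 / 50)) := by
  have h0 : 0 ≤ (21 / 20) / exp 1 := by positivity
  have h1 : (√((21 / 20) / exp 1) * (11 / 10)) ^ 2 ≤ exp (-(19 / 50)) ^ 2 := by
    rw [mul_pow, Real.sq_sqrt h0, ← Real.exp_nat_mul]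
    have e1 : exp ((2 : ℕ) * (-(19 / 50))) = exp (6 / 25) / exp 1 := by
      rw [← Real.exp_sub]
      congr 1
      norm_num
    rw [e1]
    have e2 : (12705 / 10000 : ℝ) ≤ exp (6 / 25) := by
      have := Real.quadratic_le_exp_of_nonneg (x := (6 / 25 : ℝ) / 2) (by norm_num)
      have e3 : exp (6 / 25) = exp ((6 / 25 : ℝ) / 2) ^ 2 := by
        rw [← Real.exp_nat_mul]
        congr 1
        norm_num
      rw [e3]
      calc (12705 / 10000 : ℝ) ≤ (1 + (6 / 25 : ℝ) / 2 + ((6 / 25 : ℝ) / 2) ^ 2 / 2) ^ 2 := by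
            norm_num
        _ ≤ _ := pow_le_pow_left₀ (by norm_num) this _
    have e4 : (21 / 20) / exp 1 * (11 / 10) ^ 2 = (12705 / 10000) / exp 1 := by ring
    rw [e4]
    exact div_le_div_of_nonneg_right e2 (exp_pos 1).le
  exact (pow_le_pow_iff_left₀ (by positivity) (exp_pos _).le two_ne_zero).1 h1

theorem Rd_pos {d : ℕ} (hd : 1 ≤ d) : 0 < Rd d := by
  unfold Rd
  apply Real.sqrt_pos.2
  have : (0 : ℝ) < d := by exact_mod_cast hd
  positivity

theorem vol1 (hB : TaskBALL) (d : ℕ) (hd : 1 ≤ d) :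
    IsCompact {v : Fin 1 → E d | ∀ l, ‖v l‖ ≤ Rd d / 2} ∧
    (volume {v : Fin 1 → E d | ∀ l, ‖v l‖ ≤ Rd d / 2}).toReal ≤ (1 / 2 : ℝ) ^ d := by
  obtain ⟨hv, hvR, -⟩ := hB d hd
  have hR := Rd_pos hd
  have hset : {v : Fin 1 → E d | ∀ l, ‖v l‖ ≤ Rd d / 2} =
      Set.pi Set.univ (fun _ => closedBall (0 : E d) (Rd d / 2)) := by
    ext v
    simp [Set.mem_pi]
  rw [hset]
  refine ⟨isCompact_univ_pi fun _ => isCompact_closedBall _ _, ?_⟩
  rw [volume_pi_pi]
  simp only [Finset.univ_unique, Finset.prod_singleton]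
  rw [Measure.addHaar_closedBall' _ _ (by positivity), ENNReal.toReal_mul,
    ENNReal.toReal_ofReal (by positivity), finrank_euclideanSpace, Fintype.card_fin]
  have h1 : (volume (closedBall (0 : E d) 1)).toReal = vb d := rfl
  rw [h1, div_pow]
  calc Rd d ^ d / 2 ^ d * vb d = (vb d * Rd d ^ d) * (1 / 2) ^ d := by
        rw [div_pow, one_pow]
        ring
    _ ≤ 1 * (1 / 2) ^ d := by
        apply mul_le_mul_of_nonneg_right hvR (by positivity)
    _ = (1 / 2) ^ d := one_mul _

theorem vol2 (hB : TaskBALL) (hBs : TaskBSET) (d j : ℕ) (hd : 1 ≤ d) :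
    IsCompact (Bset d j ((999 / 1000) * Rd d)) ∧
    (volume (Bset d j ((999 / 1000) * Rd d))).toReal ≤ (1999 * (1999 / 2000 : ℝ) ^ j) ^ d := by
  obtain ⟨hv, hvR, -⟩ := hB d hd
  have hR := Rd_pos hd
  obtain ⟨h1, h2⟩ := hBs d j ((999 / 1000) * Rd d) (Rd d / 2000) hd (by positivity) (by positivity)
  refine ⟨h1, h2.trans ?_⟩
  have e1 : (999 / 1000) * Rd d + Rd d / 2000 = (1999 / 2000) * Rd d := by ring
  have e2 : (1999 / 2000) * Rd d / (Rd d / 2000) = 1999 := by
    field_simp
  rw [e1, e2]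
  have e3 : vb d * ((1999 / 2000) * Rd d) ^ d ≤ (1999 / 2000) ^ d := by
    calc vb d * ((1999 / 2000) * Rd d) ^ d = (1999 / 2000) ^ d * (vb d * Rd d ^ d) := by
          rw [mul_pow]
          ring
      _ ≤ (1999 / 2000) ^ d * 1 := mul_le_mul_of_nonneg_left hvR (by positivity)
      _ = _ := mul_one _
  calc 1999 ^ d * (vb d * ((1999 / 2000) * Rd d) ^ d) ^ j
      ≤ 1999 ^ d * ((1999 / 2000) ^ d) ^ j := by
        apply mul_le_mul_of_nonneg_left _ (by positivity)
        exact pow_le_pow_left₀ (by positivity) e3 _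
    _ = (1999 * (1999 / 2000 : ℝ) ^ j) ^ d := by
        rw [mul_pow, ← pow_mul, ← pow_mul, Nat.mul_comm]

theorem vol3 (hB : TaskBALL) (hRs : TaskRSET) (d j : ℕ) (hd : 20000 ≤ d) (hj : 40 ≤ j)
    (hjd : 10 * j ≤ d) :
    IsCompact (Rset d j ((11 / 10) * Rd d) (kap d)) ∧
    (volume (Rset d j ((11 / 10) * Rd d) (kap d))).toReal ≤ exp (-(d : ℝ)) := by
  obtain ⟨hv, hvR, -⟩ := hB d (by omega)
  have hR := Rd_pos (d := d) (by omega)
  have hc := num2
  set c : ℝ := √((21 / 20) / exp 1) * (11 / 10) with hcdef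
  have hc0 : 0 < c := by
    rw [hcdef]
    have : 0 < √((21 / 20) / exp 1) := Real.sqrt_pos.2 (by positivity)
    positivity
  have hkap : kap d = c * Rd d := by
    unfold kap
    rw [hcdef]
    ring
  have hk0 : 0 < kap d := by
    rw [hkap]
    positivity
  obtain ⟨h1, h2⟩ := hRs d j ((11 / 10) * Rd d) (kap d) ((11 / 1000) * Rd d) (by omega) hjd
    (by positivity) hk0 (by positivity)
  refine ⟨h1, h2.trans ?_⟩
  have e1 : (11 / 10) * Rd d + (11 / 1000) * Rd d = (1111 / 1000) * Rd d := by ring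
  have e2 : (1111 / 1000) * Rd d / ((11 / 1000) * Rd d) = 101 := by
    field_simp
    norm_num
  rw [e1, e2, hkap]
  have hdR : (20000 : ℝ) ≤ d := by exact_mod_cast hd
  have hjR : (40 : ℝ) ≤ j := by exact_mod_cast hj
  have hjdR : 10 * (j : ℝ) ≤ d := by exact_mod_cast hjd
  have hjle : j ≤ d := by omega
  -- the inner factor
  have hq : (c * Rd d) ^ (d - j) * d * ((1111 / 1000) * Rd d) ^ j * vb d *
      exp ((21 / 125) * d) ≤ exp (-(1529 / 10000) * d) := by
    have a1 : c ^ (d - j) ≤ exp (-(19 / 50) * ((d : ℝ) - j)) := by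
      calc c ^ (d - j) ≤ exp (-(19 / 50)) ^ (d - j) := pow_le_pow_left₀ hc0.le hc _
        _ = exp (-(19 / 50) * ((d : ℝ) - j)) := by
          rw [← Real.exp_nat_mul, Nat.cast_sub hjle]
          congr 1
          ring
    have a2 : (1111 / 1000 : ℝ) ^ j ≤ exp ((111 / 1000) * j) := by
      have : (1111 / 1000 : ℝ) ≤ exp (111 / 1000) := by
        have := Real.add_one_le_exp (111 / 1000 : ℝ)
        linarith
      calc (1111 / 1000 : ℝ) ^ j ≤ exp (111 / 1000) ^ j := pow_le_pow_left₀ (by norm_num) this _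
        _ = exp ((111 / 1000) * j) := by
          rw [← Real.exp_nat_mul]
          congr 1
          ring
    have a3 : (d : ℝ) ≤ exp (d / 100) := by
      have := Real.quadratic_le_exp_of_nonneg (x := (d : ℝ) / 100) (by positivity)
      nlinarith
    have a4 : Rd d ^ (d - j) * Rd d ^ j = Rd d ^ d := by
      rw [← pow_add]
      congr 1
      omega
    calc (c * Rd d) ^ (d - j) * d * ((1111 / 1000) * Rd d) ^ j * vb d * exp ((21 / 125) * d)
        = c ^ (d - j) * d * (1111 / 1000) ^ j * (vb d * (Rd d ^ (d - j) * Rd d ^ j)) *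
            exp ((21 / 125) * d) := by
          rw [mul_pow, mul_pow]
          ring
      _ = c ^ (d - j) * d * (1111 / 1000) ^ j * (vb d * Rd d ^ d) * exp ((21 / 125) * d) := by
          rw [a4]
      _ ≤ exp (-(19 / 50) * ((d : ℝ) - j)) * exp (d / 100) * exp ((111 / 1000) * j) * 1 *
            exp ((21 / 125) * d) := by
          gcongr
      _ = exp (-(19 / 50) * ((d : ℝ) - j) + d / 100 + (111 / 1000) * j + (21 / 125) * d) := by
          rw [mul_one, ← Real.exp_add, ← Real.exp_add, ← Real.exp_add]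
      _ ≤ exp (-(1529 / 10000) * d) := by
          apply Real.exp_le_exp.2
          linarith
  have hQ0 : 0 ≤ (c * Rd d) ^ (d - j) * d * ((1111 / 1000) * Rd d) ^ j * vb d *
      exp ((21 / 125) * d) := by positivity
  have hq1 : exp (-(1529 / 10000) * d) ≤ 1 := by
    apply Real.exp_le_one_iff.2
    nlinarith
  have h101 : (101 : ℝ) ^ d ≤ exp (5 * d) := by
    have e3 : (101 : ℝ) ≤ exp 5 := by
      have e4 : (2.7 : ℝ) ≤ exp 1 := by
        have := Real.exp_one_gt_d9
        linarith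
      have e5 : exp 5 = exp 1 ^ 5 := by
        rw [← Real.exp_nat_mul]
        norm_num
      rw [e5]
      calc (101 : ℝ) ≤ 2.7 ^ 5 := by norm_num
        _ ≤ exp 1 ^ 5 := pow_le_pow_left₀ (by norm_num) e4 _
    calc (101 : ℝ) ^ d ≤ exp 5 ^ d := pow_le_pow_left₀ (by norm_num) e3 _
      _ = exp (5 * d) := by
        rw [← Real.exp_nat_mul]
        congr 1
        ring
  calc (101 : ℝ) ^ d * ((c * Rd d) ^ (j * (d - j)) * (d : ℝ) ^ j *
        ((1111 / 1000) * Rd d) ^ (j * j) * vb d ^ j * exp ((21 / 125) * d) ^ j)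
      = 101 ^ d * ((c * Rd d) ^ (d - j) * d * ((1111 / 1000) * Rd d) ^ j * vb d *
          exp ((21 / 125) * d)) ^ j := by
        rw [mul_pow _ _ j, mul_pow _ _ j, mul_pow _ _ j, mul_pow _ _ j, ← pow_mul, ← pow_mul,
          Nat.mul_comm (d - j) j]
    _ ≤ exp (5 * d) * exp (-(1529 / 10000) * d) ^ j := by
        apply mul_le_mul h101 (pow_le_pow_left₀ hQ0 hq _) (by positivity) (exp_pos _).le
    _ ≤ exp (5 * d) * exp (-(1529 / 10000) * d) ^ 40 := by
        apply mul_le_mul_of_nonneg_left _ (exp_pos _).le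
        exact pow_le_pow_of_le_one (exp_pos _).le hq1 hj
    _ = exp (5 * d + (40 : ℕ) * (-(1529 / 10000) * d)) := by
        rw [← Real.exp_nat_mul, ← Real.exp_add]
    _ ≤ exp (-(d : ℝ)) := by
        apply Real.exp_le_exp.2
        push_cast
        linarith

/-- the forbidden sets of tuples -/
noncomputable def RR (d j : ℕ) : Set (Fin j → E d) :=
  ((if j = 1 then {v | ∀ l, ‖v l‖ ≤ Rd d / 2} else ∅) ∪
    (if j = 20000 then Bset d j ((999 / 1000) * Rd d) else ∅)) ∪
    (if 40 ≤ j ∧ 10 * j ≤ d then Rset d j ((11 / 10) * Rd d) (kap d) else ∅)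

theorem RR_compact (hB : TaskBALL) (hBs : TaskBSET) (hRs : TaskRSET) (d j : ℕ)
    (hd : 20000 ≤ d) : IsCompact (RR d j) := by
  unfold RR
  refine IsCompact.union (IsCompact.union ?_ ?_) ?_
  · split_ifs with h
    · subst h
      exact (vol1 hB d (by omega)).1
    · exact isCompact_empty
  · split_ifs with h
    · exact (vol2 hB hBs d j (by omega)).1
    · exact isCompact_empty
  · split_ifs with h
    · exact (vol3 hB hRs d j hd h.1 h.2).1
    · exact isCompact_empty

theorem RR_vol (hB : TaskBALL) (hBs : TaskBSET) (hRs : TaskRSET) (d j : ℕ)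
    (hd : 20000 ≤ d) : (volume (RR d j)).toReal ≤
      (if j = 1 then (1 / 2 : ℝ) ^ d else 0) + (if j = 20000 then (1 / 2 : ℝ) ^ d else 0) +
        exp (-(d : ℝ)) := by
  have h0 : (volume (RR d j)).toReal ≤
      (volume (if j = 1 then {v : Fin j → E d | ∀ l, ‖v l‖ ≤ Rd d / 2} else ∅)).toReal +
      (volume (if j = 20000 then Bset d j ((999 / 1000) * Rd d) else ∅)).toReal +
      (volume (if 40 ≤ j ∧ 10 * j ≤ d then Rset d j ((11 / 10) * Rd d) (kap d) else ∅)).toReal := by
    refine (measureReal_union_le _ _).trans ?_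
    exact add_le_add (measureReal_union_le _ _) le_rfl
  refine h0.trans (add_le_add (add_le_add ?_ ?_) ?_)
  · split_ifs with h
    · subst h
      exact (vol1 hB d (by omega)).2
    · simp
  · split_ifs with h
    · refine (vol2 hB hBs d j (by omega)).2.trans ?_
      rw [h]
      exact pow_le_pow_left₀ (by positivity) num1 _
    · simp
  · split_ifs with h
    · exact (vol3 hB hRs d j hd h.1 h.2).2
    · simp only [measure_empty, ENNReal.toReal_zero]
      exact (exp_pos _).le

theorem taskGOOD (hL : TaskLAT) (hB : TaskBALL) (hBs : TaskBSET) (hRs : TaskRSET) : TaskGOOD := by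
  refine ⟨20001, fun d hd => ?_⟩
  have hd' : 20000 ≤ d := by omega
  have hsum : (∑ j ∈ Finset.Ico 1 d, (volume (RR d j)).toReal) < 1 := by
    have hdR : (20001 : ℝ) ≤ d := by exact_mod_cast hd
    have hhalf : (1 / 2 : ℝ) ^ d ≤ 1 / 4 := by
      calc (1 / 2 : ℝ) ^ d ≤ (1 / 2) ^ 2 :=
            pow_le_pow_of_le_one (by norm_num) (by norm_num) (by omega)
        _ = 1 / 4 := by norm_num
    have hexp : (d : ℝ) * exp (-(d : ℝ)) ≤ 1 / 4 := by
      have h1 := Real.quadratic_le_exp_of_nonneg (x := (d : ℝ)) (by positivity)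
      have h2 : 4 * (d : ℝ) ≤ exp d := by nlinarith
      rw [Real.exp_neg, ← div_eq_mul_inv, div_le_iff₀ (exp_pos _)]
      linarith
    calc (∑ j ∈ Finset.Ico 1 d, (volume (RR d j)).toReal)
        ≤ ∑ j ∈ Finset.Ico 1 d, ((if j = 1 then (1 / 2 : ℝ) ^ d else 0) +
            (if j = 20000 then (1 / 2 : ℝ) ^ d else 0) + exp (-(d : ℝ))) :=
          Finset.sum_le_sum fun j _ => RR_vol hB hBs hRs d j hd'
      _ = (∑ j ∈ Finset.Ico 1 d, (if j = 1 then (1 / 2 : ℝ) ^ d else 0)) +
            (∑ j ∈ Finset.Ico 1 d, (if j = 20000 then (1 / 2 : ℝ) ^ d else 0)) +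
            ((Finset.Ico 1 d).card : ℝ) * exp (-(d : ℝ)) := by
          rw [Finset.sum_add_distrib, Finset.sum_add_distrib, Finset.sum_const, nsmul_eq_mul]
      _ ≤ 1 / 4 + 1 / 4 + 1 / 4 := by
          refine add_le_add (add_le_add ?_ ?_) ?_
          · rw [Finset.sum_ite_eq' (Finset.Ico 1 d) 1 (fun _ => (1 / 2 : ℝ) ^ d)]
            split_ifs
            · exact hhalf
            · norm_num
          · rw [Finset.sum_ite_eq' (Finset.Ico 1 d) 20000 (fun _ => (1 / 2 : ℝ) ^ d)]
            split_ifs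
            · exact hhalf
            · norm_num
          · refine le_trans ?_ hexp
            apply mul_le_mul_of_nonneg_right _ (exp_pos _).le
            rw [Nat.card_Ico]
            exact_mod_cast Nat.sub_le d 1
      _ < 1 := by norm_num
  obtain ⟨M, hdet, hM⟩ := hL d (by omega) (RR d)
    (fun j _ _ => RR_compact hB hBs hRs d j hd') hsum
  have hdet0 : M.det ≠ 0 := by
    intro h
    rw [h, abs_zero] at hdet
    exact zero_ne_one hdet
  refine ⟨M, hdet, ?_, ?_, ?_⟩
  · intro z hz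
    by_contra hcon
    push Not at hcon
    have hne : lp M z ≠ 0 := by
      intro h
      apply hz
      have h1 : M.mulVec (fun i => (z i : ℝ)) = 0 := by
        have := congrArg (WithLp.ofLp) h
        simpa [Pool.Agent.H624R3.CP.lp] using this
      have h2 := Matrix.eq_zero_of_mulVec_eq_zero hdet0 h1
      funext i
      have h3 := congrFun h2 i
      simpa using h3
    have hli : LinearIndependent ℝ (fun l : Fin 1 => lp M ((fun _ : Fin 1 => z) l)) := by
      rw [linearIndependent_unique_iff]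
      exact hne
    refine hM 1 le_rfl (by omega) (fun _ => z) hli ?_
    unfold RR
    left
    left
    rw [if_pos rfl]
    intro l
    exact hcon
  · intro v hv hmem
    refine hM 20000 (by norm_num) (by omega) v hv ?_
    unfold RR
    left
    right
    rw [if_pos rfl]
    exact hmem
  · intro j hj hjd v hv hmem
    refine hM j (by omega) (by omega) v hv ?_
    unfold RR
    right
    rw [if_pos ⟨hj, hjd⟩]
    exact hmem

end Pool.Agent.H388R3.CP
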